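import Mathlib

set_option autoImplicit false
open Complex

namespace Pool.Agent.Results.MP_057a77_an.No

noncomputable def ph (t : ℝ) : ℝ := max 0 (min (min t 1) (4 - t))

theorem ph_zero {t : ℝ} (h : t ≤ 0 ∨ 4 ≤ t) : ph t = 0 := by
  unfold ph
  rcases h with h | h <;> simp only [max_def, min_def] <;> split_ifs <;> linarith

theorem dil (t : ℝ) : ph (t / 2) = (ph t + ph (t - 1) + ph (t - 3) + ph (t - 4)) / 2 := by
  have e : ∀ x : ℝ, ph x = max x 0 - max (x - 1) 0 - max (x - 3) 0 + max (x - 4) 0 := by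
    intro x
    unfold ph
    simp only [max_def, min_def]
    split_ifs <;> linarith
  have m : ∀ x a : ℝ, max (x / 2 - a) 0 = max (x - 2 * a) 0 / 2 := by
    intro x a
    simp only [max_def]
    split_ifs <;> linarith
  have m0 := m t 0
  simp only [sub_zero, mul_zero] at m0
  simp only [e, m, m0, sub_sub]
  norm_num
  ring

noncomputable def w : ℂ := exp (2 * Real.pi * I * (1 / 3 : ℝ))

theorem w3 : w ^ 3 = 1 := by
  unfold w
  rw [← exp_nat_mul, ← exp_two_pi_mul_I]
  congr 1; push_cast; ring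

theorem w1 : w ≠ 1 := by
  unfold w
  rw [Ne, exp_eq_one_iff]
  rintro ⟨n, hn⟩
  have h : ((1 / 3 : ℝ) : ℂ) = (n : ℂ) :=
    mul_left_cancel₀ two_pi_I_ne_zero (by rw [hn]; ring)
  have h2 : (1 / 3 : ℝ) = n := by exact_mod_cast h
  have h3 : (1 : ℤ) = 3 * n := by
    have : (1 : ℝ) = 3 * n := by linarith
    exact_mod_cast this
  omega

theorem w2 : 1 + w + w ^ 2 = 0 := by
  have : (w - 1) * (1 + w + w ^ 2) = 0 := by linear_combination w3
  exact (mul_eq_zero.1 this).resolve_left (sub_ne_zero.2 w1)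

theorem zak (t : ℝ) :
    HasSum (fun k : ℤ => (ph (t + k) : ℂ) * exp (2 * Real.pi * I * k * (1 / 3 : ℝ))) 0 := by
  have h0 : w ≠ 0 := exp_ne_zero _
  have e : ∀ k : ℤ, exp (2 * Real.pi * I * k * (1 / 3 : ℝ)) = w ^ k := by
    intro k; unfold w; rw [← exp_int_mul]; congr 1; ring
  simp only [e]
  have h1 := Int.floor_le t
  have h2 := Int.lt_floor_add_one t
  generalize ⌊t⌋ = n at h1 h2
  have hs := hasSum_sum_of_ne_finset_zero (L := SummationFilter.unconditional ℤ)
    (f := fun k : ℤ => (ph (t + k) : ℂ) * w ^ k)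
    (s := {-n, -n + 1, -n + 2, -n + 3}) (fun k hk => by
      simp only [Finset.mem_insert, Finset.mem_singleton, not_or] at hk
      rw [ph_zero, ofReal_zero, zero_mul]
      rcases (by omega : k + 1 ≤ -n ∨ -n + 4 ≤ k) with h | h
      · have : (k : ℝ) + 1 ≤ -n := by exact_mod_cast h
        left; linarith
      · have : (-n : ℝ) + 4 ≤ k := by exact_mod_cast h
        right; linarith)
  convert! hs using 1
  rw [Finset.sum_insert (by simp), Finset.sum_insert (by simp), Finset.sum_pair (by omega)]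
  have p0 : ph (t + ((-n : ℤ) : ℝ)) = t - n := by
    unfold ph; push_cast; simp only [max_def, min_def]; split_ifs <;> linarith
  have p1 : ph (t + ((-n + 1 : ℤ) : ℝ)) = 1 := by
    unfold ph; push_cast; simp only [max_def, min_def]; split_ifs <;> linarith
  have p2 : ph (t + ((-n + 2 : ℤ) : ℝ)) = 1 := by
    unfold ph; push_cast; simp only [max_def, min_def]; split_ifs <;> linarith
  have p3 : ph (t + ((-n + 3 : ℤ) : ℝ)) = 1 - (t - n) := by
    unfold ph; push_cast; simp only [max_def, min_def]; split_ifs <;> linarith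
  rw [p0, p1, p2, p3, zpow_add₀ h0, zpow_add₀ h0, zpow_add₀ h0, zpow_one, zpow_ofNat, zpow_ofNat,
    w3]
  push_cast
  linear_combination -w ^ (-n) * w2

theorem result : ∃ (φ : ℝ → ℝ) (s : Finset ℤ) (d : ℤ → ℝ),
    φ ≠ 0 ∧ Continuous φ ∧ HasCompactSupport φ ∧ (∀ t, 0 ≤ φ t) ∧ (∀ k, 0 ≤ d k) ∧
    (∑ k ∈ s with Even k, d k = 1) ∧ (∑ k ∈ s with Odd k, d k = 1) ∧
    (∀ t : ℝ, φ (t / 2) = ∑ k ∈ s, d k * φ (t - k)) ∧
    (∀ ξ : ℝ, ¬ (∑ k ∈ s, (d k : ℂ) * exp (2 * Real.pi * I * k * ξ) = 0 ∧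
      ∑ k ∈ s, (d k : ℂ) * exp (2 * Real.pi * I * k * (ξ + 1 / 2 : ℝ)) = 0)) ∧
    ∀ t : ℝ, ∃ ξ : ℝ,
      HasSum (fun k : ℤ => (φ (t + k) : ℂ) * exp (2 * Real.pi * I * k * ξ)) 0 := by
  refine ⟨ph, {0, 1, 3, 4}, fun _ => 1 / 2, ?_, by unfold ph; fun_prop, ?_,
    fun _ => le_max_left _ _, fun _ => by norm_num, ?_, ?_, fun t => ?_, ?_, fun t => ⟨_, zak t⟩⟩
  · intro h
    have := congrFun h 1
    norm_num [ph] at this
  · refine HasCompactSupport.intro (isCompact_Icc (a := 0) (b := 4)) fun x hx => ph_zero ?_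
    rw [Set.mem_Icc, not_and_or, not_le, not_le] at hx
    exact hx.imp le_of_lt le_of_lt
  · rw [show ({0, 1, 3, 4} : Finset ℤ).filter Even = {0, 4} by decide]; norm_num
  · rw [show ({0, 1, 3, 4} : Finset ℤ).filter Odd = {1, 3} by decide]; norm_num
  · rw [dil]; simp; ring
  · rintro ξ ⟨h1, h2⟩
    have e : ∀ (k : ℕ) (x : ℝ), exp (2 * Real.pi * I * (k : ℂ) * x) =
        exp (2 * Real.pi * I * x) ^ k := by
      intro k x; rw [← exp_nat_mul]; congr 1; ring
    have e2 : exp (2 * Real.pi * I * (ξ + 1 / 2 : ℝ)) = -exp (2 * Real.pi * I * ξ) := by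
      rw [← exp_add_pi_mul_I]; congr 1; push_cast; ring
    have a0 := e 0
    have a1 := e 1
    have a3 := e 3
    have a4 := e 4
    rw [Finset.sum_insert (by decide), Finset.sum_insert (by decide),
      Finset.sum_pair (by decide)] at h1 h2
    simp only [Int.cast_zero, Int.cast_one, Int.cast_ofNat, Nat.cast_zero, Nat.cast_one,
      Nat.cast_ofNat] at h1 h2 a0 a1 a3 a4
    rw [a0, a1, a3, a4] at h1 h2
    rw [e2] at h2
    have h0 : exp (2 * Real.pi * I * ξ) ≠ 0 := exp_ne_zero _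
    generalize exp (2 * Real.pi * I * ξ) = z at h1 h2 h0
    push_cast at h1 h2
    have b1 : z * (1 + z ^ 2) = 0 := by linear_combination h1 - h2
    have b2 : 1 + z ^ 2 = 0 := (mul_eq_zero.1 b1).resolve_left h0
    have b3 : (2 : ℂ) = 0 := by linear_combination h1 + h2 + (1 - z ^ 2) * b2
    norm_num at b3

end Pool.Agent.Results.MP_057a77_an.No
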